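import Pool.Agent.H86.RG.Targets2

/-! Partial regularity of stationary harmonic maps (MP_2697e3_an), part E, row E6P1: Morrey decay of the
Laplacian gives a Hölder continuous gradient. -/

set_option autoImplicit false

namespace Pool.Agent.H12.RG6

open MeasureTheory Metric Set Filter Topology Pool.Agent.H87.SN Pool.Agent.H86.RG
open scoped ContDiff RealInnerProductSpace ENNReal

/-- smooth functions which vanish outside the unit ball are bounded -/
lemma bddk {n : ℕ} (k : E n → ℝ) (hk : ContDiff ℝ ∞ k) (hz : ∀ x, 1 ≤ ‖x‖ → k x = 0) :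
    ∃ M : ℝ, 0 ≤ M ∧ ∀ y, |k y| ≤ M := by
  obtain ⟨M, hM⟩ := (isCompact_closedBall (0 : E n) 1).exists_bound_of_continuousOn
    hk.continuous.continuousOn
  refine ⟨max M 0, le_max_right _ _, fun y => ?_⟩
  by_cases hy : ‖y‖ ≤ 1
  · have := hM y (by simpa [mem_closedBall, dist_zero_right] using hy)
    exact this.trans (le_max_left _ _)
  · rw [hz y (le_of_lt (not_le.1 hy)), abs_zero]
    exact le_max_right _ _

/-- the derivative of a constant multiple -/
lemma dd_cmul {n : ℕ} (i : Fin n) (c : ℝ) (f : E n → ℝ) :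
    dd i (fun x => c * f x) = fun x => c * dd i f x := by
  funext x
  unfold dd
  have h : (fun y => c * f y) = c • f := by
    funext y; simp
  rw [h, fderiv_const_smul_field]
  simp

/-- powers of `t` -/
lemma powt (n : ℕ) (s t : ℝ) (ht : 0 < t) :
    (t ^ n)⁻¹ * t ^ ((n : ℝ) - 2 + s) = t ^ (s - 2) := by
  have h1 : (t ^ n)⁻¹ = t ^ (-(n : ℝ)) := by
    rw [Real.rpow_neg ht.le, Real.rpow_natCast]
  rw [h1, ← Real.rpow_add ht]
  congr 1
  ring

theorem pf_P1 (hKER : T_KER) (hDIL : T_DIL) (hDCV : T_DCV) (hTRC : T_TRC) (hREP : T_REP)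
    (hLM : T_LM) (hSM1 : T_SM1) (hHLO : Pool.Agent.H70.RG.T_HLO) (hHAL : Pool.Agent.H70.RG.T_HAL)
    (hHCD : Pool.Agent.H70.RG.T_HCD) : T_P1 := by
  intro n v g x₀ R C s hn hR hs1 hs2 hvc hvi hgi hW hM
  obtain ⟨φ, ζ, hK⟩ := hKER n hn
  have hx0 : x₀ ∈ ball x₀ R := mem_ball_self hR
  have hC : 0 ≤ C := by
    have h1 := hM x₀ hx0 R hR le_rfl
    have h2 : 0 ≤ ∫ y in ball x₀ R, |g y| := integral_nonneg fun y => abs_nonneg _
    have h3 : 0 < R ^ ((n : ℝ) - 2 + s) := Real.rpow_pos_of_pos hR _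
    by_contra hneg
    have h4 : C * R ^ ((n : ℝ) - 2 + s) < 0 := mul_neg_of_neg_of_pos (not_le.1 hneg) h3
    linarith
  set g' : E n → ℝ := (ball x₀ (2 * R)).indicator g with hg'
  set v' : E n → ℝ := (ball x₀ (2 * R)).indicator v with hv'
  have hg'i : Integrable g' := (integrable_indicator_iff measurableSet_ball).2 hgi
  have hv'i : Integrable v' := (integrable_indicator_iff measurableSet_ball).2 hvi
  -- the bound of the convolutions
  have key : ∀ k : E n → ℝ, ContDiff ℝ ∞ k → (∀ x, 1 ≤ ‖x‖ → k x = 0) → ∀ M : ℝ, 0 ≤ M →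
      (∀ y, |k y| ≤ M) → ∀ x ∈ ball x₀ R, ∀ t : ℝ, 0 < t → t ≤ R →
      |cv (dil k t) g' x| ≤ M * C * t ^ (s - 2) := by
    intro k hk hkz M hM0 hkM x hx t ht htR
    have h1 := (hDCV n k g' t ht hk hkz hg'i).2.2 M x hkM
    have hsub : ball x t ⊆ ball x₀ (2 * R) := by
      intro y hy
      rw [mem_ball] at hy hx ⊢
      have := dist_triangle y x x₀
      linarith
    have h2 : ∫ y in ball x t, |g' y| = ∫ y in ball x t, |g y| := by
      apply setIntegral_congr_fun measurableSet_ball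
      intro y hy
      simp only [hg', indicator_of_mem (hsub hy)]
    have h3 := hM x hx t ht htR
    rw [h2] at h1
    have h4 : M * (t ^ n)⁻¹ * ∫ y in ball x t, |g y| ≤
        M * (t ^ n)⁻¹ * (C * t ^ ((n : ℝ) - 2 + s)) :=
      mul_le_mul_of_nonneg_left h3 (by positivity)
    calc |cv (dil k t) g' x| ≤ M * (t ^ n)⁻¹ * (C * t ^ ((n : ℝ) - 2 + s)) := h1.trans h4
      _ = M * C * ((t ^ n)⁻¹ * t ^ ((n : ℝ) - 2 + s)) := by ring
      _ = M * C * t ^ (s - 2) := by rw [powt n s t ht]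
  -- the derivatives of the kernel
  have hζi : ∀ i, ContDiff ℝ ∞ (dd i ζ) ∧ (∀ x, 1 ≤ ‖x‖ → dd i ζ x = 0) := fun i =>
    ⟨((hDIL n ζ 1 one_pos hK.sζ hK.zζ).2.2.2.2 i).1, ((hDIL n ζ 1 one_pos hK.sζ hK.zζ).2.2.2.2 i).2.1⟩
  have hζij : ∀ i j, ContDiff ℝ ∞ (dd j (dd i ζ)) ∧ (∀ x, 1 ≤ ‖x‖ → dd j (dd i ζ) x = 0) :=
    fun i j => ⟨((hDIL n (dd i ζ) 1 one_pos (hζi i).1 (hζi i).2).2.2.2.2 j).1,
      ((hDIL n (dd i ζ) 1 one_pos (hζi i).1 (hζi i).2).2.2.2.2 j).2.1⟩
  obtain ⟨M0, hM0, hb0⟩ := bddk ζ hK.sζ hK.zζ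
  choose M1 hM1 hb1 using fun i => bddk (dd i ζ) (hζi i).1 (hζi i).2
  choose M2 hM2 hb2 using fun p : Fin n × Fin n =>
    bddk (dd p.2 (dd p.1 ζ)) (hζij p.1 p.2).1 (hζij p.1 p.2).2
  set M : ℝ := M0 + ∑ i, M1 i + ∑ p, M2 p with hMdef
  have hS1 : 0 ≤ ∑ i, M1 i := Finset.sum_nonneg fun i _ => hM1 i
  have hS2 : 0 ≤ ∑ p, M2 p := Finset.sum_nonneg fun p _ => hM2 p
  have hMn : 0 ≤ M := by positivity
  have c0 : ∀ y, |ζ y| ≤ M := fun y => (hb0 y).trans (by linarith)
  have c1 : ∀ i y, |dd i ζ y| ≤ M := fun i y => by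
    have := Finset.single_le_sum (f := M1) (fun j _ => hM1 j) (Finset.mem_univ i)
    have h2 := hb1 i y
    linarith
  have c2 : ∀ i j y, |dd j (dd i ζ) y| ≤ M := fun i j y => by
    have := Finset.single_le_sum (f := M2) (fun q _ => hM2 q) (Finset.mem_univ (i, j))
    have h2 := hb2 (i, j) y
    simp only at h2
    linarith
  -- the summands
  set w : ℕ → E n → ℝ := fun k x =>
    (-(R / 2 ^ k) ^ 2) * cv (dil ζ (R / 2 ^ k)) g' x with hw
  have ht0 : ∀ k : ℕ, 0 < R / 2 ^ k := fun k => by positivity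
  have htR : ∀ k : ℕ, R / 2 ^ k ≤ R := fun k => by
    apply div_le_self hR.le
    exact one_le_pow₀ (by norm_num)
  have hd1 : ∀ k i, dd i (w k) = fun x =>
      (-(R / 2 ^ k) ^ 2 * (R / 2 ^ k)⁻¹) * cv (dil (dd i ζ) (R / 2 ^ k)) g' x := by
    intro k i
    have h1 : dd i (w k) = fun x => (-(R / 2 ^ k) ^ 2) * dd i (cv (dil ζ (R / 2 ^ k)) g') x :=
      dd_cmul i _ _
    rw [h1]
    funext x
    rw [(hDCV n ζ g' (R / 2 ^ k) (ht0 k) hK.sζ hK.zζ hg'i).2.1 i x]
    ring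
  have hd2 : ∀ k i j, dd j (dd i (w k)) = fun x =>
      (-(R / 2 ^ k) ^ 2 * (R / 2 ^ k)⁻¹ * (R / 2 ^ k)⁻¹) *
        cv (dil (dd j (dd i ζ)) (R / 2 ^ k)) g' x := by
    intro k i j
    rw [hd1 k i, dd_cmul j]
    funext x
    rw [(hDCV n (dd i ζ) g' (R / 2 ^ k) (ht0 k) (hζi i).1 (hζi i).2 hg'i).2.1 j x]
    ring
  have hsm := hSM1 n (s - 1) (M * C * (1 + R)) R x₀ w (by linarith) (by linarith) hR
    (by positivity)
    (fun k => by
      have := (hDCV n ζ g' (R / 2 ^ k) (ht0 k) hK.sζ hK.zζ hg'i).1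
      exact contDiff_const.mul this)
    (fun k x hx => by
      have h1 := key ζ hK.sζ hK.zζ M hMn c0 x hx (R / 2 ^ k) (ht0 k) (htR k)
      set t := R / 2 ^ k with ht
      have ht0' : 0 < t := ht0 k
      have htR' : t ≤ R := htR k
      have h2 : |w k x| = t ^ 2 * |cv (dil ζ t) g' x| := by
        simp only [hw]
        rw [abs_mul, abs_neg, abs_of_nonneg (by positivity : (0 : ℝ) ≤ (R / 2 ^ k) ^ 2)]
      have h3 : t ^ (s - 1) = t * t ^ (s - 2) := by
        rw [show s - 1 = 1 + (s - 2) by ring, Real.rpow_add ht0', Real.rpow_one]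
      have hp : 0 < t ^ (s - 2) := Real.rpow_pos_of_pos ht0' _
      rw [h2, h3]
      calc t ^ 2 * |cv (dil ζ t) g' x| ≤ t ^ 2 * (M * C * t ^ (s - 2)) :=
            mul_le_mul_of_nonneg_left h1 (by positivity)
        _ = (M * C) * t * (t * t ^ (s - 2)) := by ring
        _ ≤ (M * C) * (1 + R) * (t * t ^ (s - 2)) := by
            apply mul_le_mul_of_nonneg_right _ (by positivity)
            apply mul_le_mul_of_nonneg_left _ (by positivity)
            linarith)
    (fun k x hx i => by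
      have h1 := key (dd i ζ) (hζi i).1 (hζi i).2 M hMn (c1 i) x hx (R / 2 ^ k) (ht0 k) (htR k)
      rw [hd1 k i]
      set t := R / 2 ^ k with ht
      have ht0' : 0 < t := ht0 k
      have h3 : t ^ (s - 1) = t * t ^ (s - 2) := by
        rw [show s - 1 = 1 + (s - 2) by ring, Real.rpow_add ht0', Real.rpow_one]
      have hp : 0 < t ^ (s - 2) := Real.rpow_pos_of_pos ht0' _
      have h4 : (-t ^ 2 * t⁻¹) = -t := by field_simp
      simp only [h4]
      rw [abs_mul, abs_neg, abs_of_pos ht0', h3]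
      calc t * |cv (dil (dd i ζ) t) g' x| ≤ t * (M * C * t ^ (s - 2)) :=
            mul_le_mul_of_nonneg_left h1 ht0'.le
        _ = (M * C) * 1 * (t * t ^ (s - 2)) := by ring
        _ ≤ (M * C) * (1 + R) * (t * t ^ (s - 2)) := by
            apply mul_le_mul_of_nonneg_right _ (by positivity)
            apply mul_le_mul_of_nonneg_left _ (by positivity)
            linarith)
    (fun k x hx i j => by
      have h1 := key (dd j (dd i ζ)) (hζij i j).1 (hζij i j).2 M hMn (c2 i j) x hx (R / 2 ^ k)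
        (ht0 k) (htR k)
      rw [hd2 k i j]
      set t := R / 2 ^ k with ht
      have ht0' : 0 < t := ht0 k
      have h3 : t ^ (s - 1 - 1) = t ^ (s - 2) := by congr 1; ring
      have hp : 0 < t ^ (s - 2) := Real.rpow_pos_of_pos ht0' _
      have h4 : (-t ^ 2 * t⁻¹ * t⁻¹) = -1 := by field_simp
      simp only [h4]
      rw [abs_mul, abs_neg, abs_one, one_mul, h3]
      calc |cv (dil (dd j (dd i ζ)) t) g' x| ≤ (M * C) * 1 * t ^ (s - 2) := by
            rw [mul_one]; exact h1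
        _ ≤ (M * C) * (1 + R) * t ^ (s - 2) := by
            apply mul_le_mul_of_nonneg_right _ (by positivity)
            apply mul_le_mul_of_nonneg_left _ (by positivity)
            linarith)
  obtain ⟨hsum, hHS⟩ := hsm
  -- the telescoping sum
  have htel : ∀ x ∈ ball x₀ R, ∀ K : ℕ,
      cv (dil φ (R / 2 ^ K)) v x = cv (dil φ R) v x + ∑ k ∈ Finset.range K, w k x := by
    intro x hx K
    induction K with
    | zero => simp
    | succ K ih =>
      rw [Finset.sum_range_succ, ← add_assoc, ← ih]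
      have h1 := hREP n φ ζ hK v g x₀ R hvi hgi hW x hx (R / 2 ^ K) (ht0 K) (htR K)
      rw [hTRC n ζ g x₀ R (R / 2 ^ K) (ht0 K) (htR K) hK.zζ x hx] at h1
      have h2 : R / 2 ^ (K + 1) = R / 2 ^ K / 2 := by
        rw [pow_succ]; field_simp
      rw [h2, h1]
      simp only [hw, hg']
      ring
  have htend : Tendsto (fun K : ℕ => R / 2 ^ K) atTop (𝓝[>] (0 : ℝ)) := by
    rw [tendsto_nhdsWithin_iff]
    refine ⟨?_, Eventually.of_forall fun k => ht0 k⟩
    have h1 : Tendsto (fun K : ℕ => (1 / 2 : ℝ) ^ K) atTop (𝓝 0) :=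
      tendsto_pow_atTop_nhds_zero_of_lt_one (by norm_num) (by norm_num)
    have h2 := h1.const_mul R
    rw [mul_zero] at h2
    refine h2.congr fun K => ?_
    rw [one_div, inv_pow, div_eq_mul_inv]
  have hrep : ∀ x ∈ ball x₀ R, cv (dil φ R) v' x + ∑' k, w k x = v x := by
    intro x hx
    have hx2 : x ∈ ball x₀ (2 * R) := ball_subset_ball (by linarith) hx
    have h1 := ((hLM n φ ζ hK v (ball x₀ (2 * R)) isOpen_ball hvi).2 hvc x hx2).comp htend
    have h2 : Tendsto (fun K : ℕ => cv (dil φ R) v x + ∑ k ∈ Finset.range K, w k x) atTop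
        (𝓝 (cv (dil φ R) v x + ∑' k, w k x)) :=
      (hsum x hx).hasSum.tendsto_sum_nat.const_add _
    have h3 : Tendsto (fun K : ℕ => cv (dil φ R) v x + ∑ k ∈ Finset.range K, w k x) atTop
        (𝓝 (v x)) := by
      refine h1.congr fun K => ?_
      exact htel x hx K
    have h4 := tendsto_nhds_unique h2 h3
    rw [hTRC n φ v x₀ R R hR le_rfl hK.zφ x hx] at h4
    exact h4
  have hsmooth : ContDiff ℝ ∞ (cv (dil φ R) v') :=
    (hDCV n φ v' R hR hK.sφ hK.zφ hv'i).1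
  have hH1 : Pool.Agent.H70.RG.HH 1 (cv (dil φ R) v') (ball x₀ R) :=
    ((hHCD n ℝ (cv (dil φ R) v') (ball x₀ R) isOpen_ball).2 hsmooth.contDiffOn) 1
  have hH2 := (hHAL n ℝ ℝ 1 (ball x₀ R) isOpen_ball).1 _ _ hH1 hHS
  exact (hHLO n ℝ 1).2.1 _ v (ball x₀ R) isOpen_ball hrep hH2

end Pool.Agent.H12.RG6
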